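import Pool.Agent.H580.EC.Iso2

set_option autoImplicit false

open MeasureTheory Set Filter

/-!
Site percolation on `Z^d`, `d ≥ 3`, at and near the critical point: an infinite open cluster at the
critical point would have anchored isoperimetric dimension at most two.  Around each of its vertices
there would be, at all large scales, finite connected sets `H` with at most
`C |H|^(1/2) log |H|` boundary edges.

The proof is in the modules `Pool.Agent.H580.EC.*`: the conductance bounds of the hand-in
`LogConductance`, and a co-area argument.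
-/

namespace Pool.Agent.Results.MP_e13933_pr.IsoperimetricDimension

noncomputable section

/-- Vertices of `Z^d`. -/
abbrev V (d : ℕ) : Type := Fin d → ℤ

/-- The open subgraph inside the region `S`: two vertices at Euclidean distance one are joined if
both are open (`ω x = true`) and in `S`. -/
def openGraph {d : ℕ} (ω : V d → Bool) (S : Set (V d)) : SimpleGraph (V d) where
  Adj x y := ∑ i, |x i - y i| = 1 ∧ (x ∈ S ∧ ω x = true) ∧ (y ∈ S ∧ ω y = true)
  symm := ⟨fun x y ⟨h1, h2, h3⟩ => ⟨by simpa only [abs_sub_comm] using h1, h3, h2⟩⟩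
  loopless := ⟨fun x h => by simpa using h.1⟩

/-- The open cluster of `x` inside the region `S` (empty if `x` is closed). -/
def cluster {d : ℕ} (ω : V d → Bool) (S : Set (V d)) (x : V d) : Set (V d) :=
  {y | (ω x = true ∧ x ∈ S) ∧ (openGraph ω S).Reachable x y}

/-- Site percolation with parameter `p`: the vertices are open with probability `p`,
independently. -/
def P (d : ℕ) (p : unitInterval) : Measure (V d → Bool) :=
  Measure.infinitePi (fun _ : V d =>
    ENNReal.ofReal (p : ℝ) • Measure.dirac true +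
      ENNReal.ofReal (1 - (p : ℝ)) • Measure.dirac false)

/-- The percolation probability `θ_d(p)`. -/
def theta (d : ℕ) (p : unitInterval) : ℝ := (P d p).real {ω | (cluster ω univ 0).Infinite}

/-- The critical point `p_c(d)`, the supremum of the parameters with `θ_d(p) = 0`. -/
def pc (d : ℕ) : unitInterval :=
  ⟨sSup {t : ℝ | ∃ q : unitInterval, (q : ℝ) = t ∧ theta d q = 0}, by
    constructor
    · apply Real.sSup_nonneg
      rintro x ⟨q, rfl, _⟩
      exact q.2.1
    · apply Real.sSup_le
      · rintro x ⟨q, rfl, _⟩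
        exact q.2.2
      · exact zero_le_one⟩

/-- The box of radius `n` around `z`. -/
def box {d : ℕ} (z : V d) (n : ℕ) : Finset (V d) :=
  Fintype.piFinset fun i => Finset.Icc (z i - n) (z i + n)

/-- The open edges from the finite set `H` to its complement (pairs of adjacent open vertices, the
first one in `H`, the second one not in `H`). -/
def boundary {d : ℕ} (ω : V d → Bool) (H : Finset (V d)) : Set (V d × V d) :=
  {e | e.1 ∈ H ∧ e.2 ∉ H ∧ (openGraph ω univ).Adj e.1 e.2}

/-- `H` is a connected subset of the open graph. -/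
def Conn {d : ℕ} (ω : V d → Bool) (H : Finset (V d)) : Prop :=
  ((openGraph ω univ).induce (H : Set (V d))).Connected

/-- **Isoperimetric dimension at and near the critical point.**  For every `d ≥ 3` there are `A`
and `c, C > 0` such that:

* For `k ≥ 0`, `p ≤ p_c + c / (k + 2) ^ A` and `s ≥ 0`, with `P_p`-probability at least
  `1 - C (k + 2) ^ (-s)` every open vertex `x` of the box of radius `k` belongs to a connected set
  `H` of open vertices with at most `C (1 + s) |H|^(1/2) log (k + 2)` boundary edges, which contains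
  the open cluster of `x` in the box and is contained in the box of radius `(k + 2) ^ A`.
* For `p ≤ p_c` and every `M`, `P_p`-almost surely for all large `k`, every vertex `x` of an
  infinite cluster in the box of radius `k ^ M` belongs to a connected set `H` of open vertices with
  at most `C (M + 1) |H|^(1/2) log |H|` boundary edges and at least `k` vertices, which contains the
  open cluster of `x` in the box of radius `k` around `x` and is contained in the box of radius
  `k ^ A` around `x`. -/
theorem result (d : ℕ) (hd : 3 ≤ d) : ∃ (A : ℕ) (c C : ℝ), 0 < c ∧ 0 < C ∧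
    (∀ (k : ℕ) (p : unitInterval), (p : ℝ) ≤ pc d + c / ((k : ℝ) + 2) ^ A →
      ∀ s : ℝ, 0 ≤ s →
        (P d p).real {ω | ∃ x ∈ box 0 k, ω x = true ∧ ¬ ∃ H : Finset (V d), Conn ω H ∧
          x ∈ H ∧ cluster ω (box (0 : V d) k : Set (V d)) x ⊆ H ∧ H ⊆ box 0 ((k + 2) ^ A) ∧
          ((boundary ω H).ncard : ℝ) ≤ C * (1 + s) * (√(H.card : ℝ) * Real.log ((k : ℝ) + 2))} ≤
          C * ((k : ℝ) + 2) ^ (-s)) ∧
    (∀ p : unitInterval, p ≤ pc d → ∀ M : ℕ, ∀ᵐ ω ∂(P d p), ∃ k0 : ℕ, ∀ k : ℕ, k0 ≤ k →
      ∀ x ∈ box (0 : V d) (k ^ M), (cluster ω univ x).Infinite → ∃ H : Finset (V d), Conn ω H ∧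
        x ∈ H ∧ cluster ω (box x k : Set (V d)) x ⊆ H ∧ H ⊆ box x (k ^ A) ∧ k ≤ H.card ∧
        ((boundary ω H).ncard : ℝ) ≤ C * (M + 1) * (√(H.card : ℝ) * Real.log H.card)) := by
  obtain ⟨A1, c1, C1, hA1, hc1, hC1, h1⟩ := Pool.Agent.H580.EC.iso_fin hd
  obtain ⟨A2, C2, hC2, h2⟩ := Pool.Agent.H580.EC.iso_dim hd
  refine ⟨A1 + A2, c1, C1 + C2, hc1, by positivity, fun k p hp s hs => ?_, fun p hp M => ?_⟩
  · have hk1 : (1 : ℝ) ≤ (k : ℝ) + 2 := by
      have : (0 : ℝ) ≤ k := Nat.cast_nonneg k
      linarith
    have hlog : 0 ≤ Real.log ((k : ℝ) + 2) := Real.log_nonneg hk1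
    have hp' : (p : ℝ) ≤ pc d + c1 / ((k : ℝ) + 2) ^ A1 := by
      refine hp.trans (add_le_add le_rfl ?_)
      exact div_le_div_of_nonneg_left hc1.le (by positivity) (pow_le_pow_right₀ hk1 (by omega))
    have h3 := h1 k p hp' 0 s hs
    have hr : 0 ≤ ((k : ℝ) + 2) ^ (-s) := by positivity
    refine le_trans ?_ (mul_le_mul_of_nonneg_right (by linarith : C1 ≤ C1 + C2) hr)
    refine ENNReal.toReal_le_of_le_ofReal (by positivity) (le_trans (measure_mono ?_) h3)
    rintro ω ⟨x, hx, hxo, hH⟩
    refine ⟨x, hx, hxo, fun H hs' => hH ⟨H, hs'.2.1, hs'.1, hs'.2.2.1,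
      hs'.2.2.2.1.trans (Pool.Agent.H580.EC.bx_mono' 0 (Nat.pow_le_pow_right (by omega) (by omega))),
      hs'.2.2.2.2.trans ?_⟩⟩
    refine mul_le_mul_of_nonneg_right ?_ (by positivity)
    exact mul_le_mul_of_nonneg_right (by linarith) (by positivity)
  · filter_upwards [h2 p hp M] with ω hω
    obtain ⟨k0, hk0⟩ := hω
    refine ⟨max k0 1, fun k hk x hx hinf => ?_⟩
    have hk1 : 1 ≤ k := (le_max_right _ _).trans hk
    obtain ⟨H, h3, h4, h5, h6⟩ := hk0 k ((le_max_left _ _).trans hk) x hx hinf
    have hcard := Pool.Agent.H580.EC.inf_card hinf k h4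
    have hxo : ω x = true := by
      obtain ⟨y, hy⟩ := hinf.nonempty
      exact hy.1.1
    have hxH : x ∈ H := by
      refine Finset.mem_coe.1 (h4 ⟨⟨hxo, ?_⟩, SimpleGraph.Reachable.refl _⟩)
      rw [Finset.mem_coe, Pool.Agent.H979.PC.mem_bx]
      intro i
      simp
    refine ⟨H, h3, hxH, h4, h5.trans (Pool.Agent.H580.EC.bx_mono' x
      (Nat.pow_le_pow_right hk1 (by omega))), by omega, h6.trans ?_⟩
    have hlH : 0 ≤ Real.log H.card := Real.log_nonneg (by exact_mod_cast (by omega : 1 ≤ H.card))
    refine mul_le_mul_of_nonneg_right ?_ (by positivity)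
    exact mul_le_mul_of_nonneg_right (by linarith) (by positivity)

end

end Pool.Agent.Results.MP_e13933_pr.IsoperimetricDimension
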